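import Pool.Agent.U644.TF.Theory

/-!
# Tempered fundamental groups of special varieties: the étale part and the topological part

For one smooth projective variety: the tempered fundamental group is virtually abelian if and only if
the étale fundamental group is virtually abelian and the topological fundamental groups of the
Berkovich spaces of all finite étale coverings are residually finite.

For a class of varieties which is stable under finite étale coverings, such as the
`K`-analytically special ones (Q1): all tempered fundamental groups are virtually abelian if and only
if all étale fundamental groups are virtually abelian and all topological fundamental groups are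
residually finite, or equivalently virtually abelian.
-/

namespace Pool.Agent.Results.MP_e120ef_ag.EtalePart

open Pool.Agent.U644.TF

universe u v w

/-- **Theorem.** -/
theorem result :
    (∀ T : Temp.{u, v},
      VirtAb T.G ↔ T.EtVirtAb ∧ ∀ H ∈ T.cov, Group.ResiduallyFinite (T.top H)) ∧
    (∀ F : Family.{u, v, w}, (F.Q ↔ F.Etale ∧ F.TopRF) ∧ (F.Q ↔ F.Etale ∧ F.TopVA)) :=
  ⟨temp_iff, fun F => ⟨family_iff F, family_iff' F⟩⟩

end Pool.Agent.Results.MP_e120ef_ag.EtalePart
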